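import Pool.Agent.T9h44.NK.SpecB

/-!
# Project NK, RANKIN
-/

set_option autoImplicit false

open Set
open scoped RealInnerProductSpace

namespace Pool.Agent.T9h8.NK

open Pool.Agent.T9h98.DC
open Pool.Agent.T9h44.NK

theorem li {ι : Type*} [Fintype ι] {d : ℕ} (v : ι → E d) (w : E d)
    (hv : ∀ i j, i ≠ j → ⟪v i, v j⟫ < 0) (hw : ∀ i, ⟪v i, w⟫ < 0) : LinearIndependent ℝ v := by
  rw [Fintype.linearIndependent_iff]
  intro g hg
  have hgp : ∀ i, g i = max (g i) 0 - max (-g i) 0 := fun i => by
    rcases le_total (g i) 0 with h | h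
    · rw [max_eq_right h, max_eq_left (by linarith)]
      ring
    · rw [max_eq_left h, max_eq_right (by linarith)]
      ring
  have hpn : ∀ i, max (g i) 0 * max (-g i) 0 = 0 := fun i => by
    rcases le_total (g i) 0 with h | h
    · rw [max_eq_right h, zero_mul]
    · rw [max_eq_right (by linarith : -g i ≤ 0), mul_zero]
  have hu : ∑ i, max (g i) 0 • v i = ∑ i, max (-g i) 0 • v i := by
    rw [← sub_eq_zero, ← Finset.sum_sub_distrib, ← hg]
    refine Finset.sum_congr rfl fun i _ => ?_
    rw [← sub_smul, ← hgp i]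
  have huu : ⟪∑ i, max (g i) 0 • v i, ∑ i, max (-g i) 0 • v i⟫ ≤ 0 := by
    rw [sum_inner]
    refine Finset.sum_nonpos fun i _ => ?_
    rw [inner_sum]
    refine Finset.sum_nonpos fun j _ => ?_
    rw [real_inner_smul_left, real_inner_smul_right, ← mul_assoc]
    by_cases hij : i = j
    · subst hij
      rw [hpn i, zero_mul]
    · exact mul_nonpos_of_nonneg_of_nonpos
        (mul_nonneg (le_max_right _ _) (le_max_right _ _)) (hv i j hij).le
  have hu0 : ∑ i, max (g i) 0 • v i = 0 := by
    rw [← hu] at huu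
    exact inner_self_eq_zero.1 (le_antisymm huu real_inner_self_nonneg)
  have key : ∀ p : ι → ℝ, (∀ i, 0 ≤ p i) → ∑ i, p i • v i = 0 → ∀ i, p i = 0 := by
    intro p hp h0 i
    have h1 : ∑ i, p i * ⟪v i, w⟫ = 0 := by
      have h2 : ⟪∑ i, p i • v i, w⟫ = 0 := by rw [h0, inner_zero_left]
      rw [sum_inner] at h2
      rw [← h2]
      exact Finset.sum_congr rfl fun i _ => (real_inner_smul_left _ _ _).symm
    have h3 := (Finset.sum_eq_zero_iff_of_nonpos (fun i _ =>
      mul_nonpos_of_nonneg_of_nonpos (hp i) (hw i).le)).1 h1 i (Finset.mem_univ i)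
    rcases mul_eq_zero.1 h3 with h | h
    · exact h
    · exact absurd h (hw i).ne
  have hn0 : ∑ i, max (-g i) 0 • v i = 0 := hu.symm.trans hu0
  intro i
  rw [hgp i, key (fun i => max (g i) 0) (fun i => le_max_right _ _) hu0 i,
    key (fun i => max (-g i) 0) (fun i => le_max_right _ _) hn0 i, sub_zero]

theorem rankin : S_RANKIN := by
  classical
  intro d X hX
  rcases X.eq_empty_or_nonempty with h | ⟨w, hw⟩
  · rw [h, Finset.card_empty]
    omega
  have h1 := li (ι := {x // x ∈ X.erase w}) (fun x => (x : E d)) w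
    (fun i j hij => hX _ (Finset.mem_of_mem_erase i.2) _ (Finset.mem_of_mem_erase j.2)
      fun h => hij (Subtype.ext h))
    (fun i => hX _ (Finset.mem_of_mem_erase i.2) _ hw (Finset.ne_of_mem_erase i.2))
  have h2 := h1.fintype_card_le_finrank
  rw [finrank_euclideanSpace, Fintype.card_fin, Fintype.card_coe, Finset.card_erase_of_mem hw] at h2
  omega

end Pool.Agent.T9h8.NK
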