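import Pool.Agent.T9h98.NK.SpecS

/-!
# Project NK, STEP, CUB: a polytope with orthogonal edges of equal length is a cube
-/

set_option autoImplicit false

open Set
open scoped RealInnerProductSpace

namespace Pool.Agent.T9h8.NK

open Pool.Agent.T9h98.DC Pool.Agent.T9h44.NK Pool.Agent.T9h98.NK

variable {D : ℕ}

/-- the vertices of the cube -/
noncomputable def pt (v : E (D + 1)) (e : ℝ) (b : Fin (D + 1) → E (D + 1))
    (S : Finset (Fin (D + 1))) : E (D + 1) := v + ∑ i, (if i ∈ S then e else 0) • b i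

/-- the sign -/
noncomputable def sg (e : ℝ) (S : Finset (Fin (D + 1))) (j : Fin (D + 1)) : ℝ :=
  if j ∈ S then -e else e

lemma sg_ne {e : ℝ} (he : 0 < e) (S : Finset (Fin (D + 1))) (j : Fin (D + 1)) : sg e S j ≠ 0 := by
  unfold sg
  split_ifs <;> linarith

lemma pt_insert (v : E (D + 1)) (e : ℝ) (b : Fin (D + 1) → E (D + 1)) {S : Finset (Fin (D + 1))}
    {i : Fin (D + 1)} (hi : i ∉ S) : pt v e b (insert i S) = pt v e b S + e • b i := by
  classical
  unfold pt
  rw [add_assoc]
  congr 1
  have h1 : ∀ j, (if j ∈ insert i S then e else 0) • b j =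
      (if j ∈ S then e else 0) • b j + (if j = i then e • b i else 0) := fun j => by
    by_cases hj : j = i
    · subst hj
      simp [hi]
    · simp [hj]
  rw [Finset.sum_congr rfl fun j _ => h1 j, Finset.sum_add_distrib, Finset.sum_ite_eq' Finset.univ i]
  simp

lemma pt_erase (v : E (D + 1)) (e : ℝ) (b : Fin (D + 1) → E (D + 1)) {S : Finset (Fin (D + 1))}
    {i : Fin (D + 1)} (hi : i ∈ S) : pt v e b (S.erase i) = pt v e b S + (-e) • b i := by
  classical
  have h := pt_insert v e b (Finset.notMem_erase i S)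
  rw [Finset.insert_erase hi] at h
  rw [h, add_assoc, ← add_smul, add_neg_cancel, zero_smul, add_zero]

/-- the neighbours of a vertex form an orthonormal frame -/
lemma frame {P : Set (E (D + 1))} {v : E (D + 1)} {e : ℝ} (h : LocS P v 0 e) :
    ∃ b : OrthonormalBasis (Fin (D + 1)) ℝ (E (D + 1)),
      ∀ w, Adj P v w ↔ ∃ j, w = v + e • b j := by
  classical
  have hfin : {y | Adj P v y}.Finite := Set.finite_of_ncard_ne_zero (by rw [h.num]; omega)
  obtain ⟨W, hW⟩ : ∃ W : Finset (E (D + 1)), ∀ y, y ∈ W ↔ Adj P v y :=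
    ⟨hfin.toFinset, fun y => by rw [Set.Finite.mem_toFinset]; rfl⟩
  have hWc : W.card = D + 1 := by
    have h1 : (W : Set (E (D + 1))) = {y | Adj P v y} := by
      ext y
      rw [Finset.mem_coe, hW]
      rfl
    have h2 := h.num
    rw [← h1, Set.ncard_coe_finset] at h2
    exact h2
  obtain ⟨y, hyi, hyr⟩ : ∃ y : Fin (D + 1) → E (D + 1), Function.Injective y ∧
      ∀ w, Adj P v w ↔ ∃ j, w = y j := by
    refine ⟨fun i => ((W.equivFinOfCardEq hWc).symm i : E (D + 1)), ?_, fun w => ?_⟩
    · intro i j hij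
      exact (W.equivFinOfCardEq hWc).symm.injective (Subtype.ext hij)
    · rw [← hW]
      constructor
      · intro hw
        exact ⟨W.equivFinOfCardEq hWc ⟨w, hw⟩, by simp only [Equiv.symm_apply_apply]⟩
      · rintro ⟨j, rfl⟩
        exact Subtype.prop _
  have hadj : ∀ j, Adj P v (y j) := fun j => (hyr _).2 ⟨j, rfl⟩
  have he := h.epos
  have hon : Orthonormal ℝ (fun j => e⁻¹ • (y j - v)) := by
    constructor
    · intro j
      rw [norm_smul, h.len _ (hadj j), Real.norm_of_nonneg (by positivity), inv_mul_cancel₀ he.ne']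
    · intro i j hij
      have h2 := (h.cor _ _ (hadj i) (hadj j) fun h0 => hij (hyi h0)).2
      change ⟪e⁻¹ • (y i - v), e⁻¹ • (y j - v)⟫ = 0
      rw [real_inner_smul_left, real_inner_smul_right, h2]
      ring
  have hcard : Fintype.card (Fin (D + 1)) = Module.finrank ℝ (E (D + 1)) := by
    rw [finrank_euclideanSpace]
  have hB : ⇑(basisOfOrthonormalOfCardEqFinrank hon hcard) = fun j => e⁻¹ • (y j - v) :=
    coe_basisOfOrthonormalOfCardEqFinrank hon hcard
  refine ⟨(basisOfOrthonormalOfCardEqFinrank hon hcard).toOrthonormalBasis (by rw [hB]; exact hon),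
    fun w => ?_⟩
  rw [hyr]
  refine exists_congr fun j => ?_
  rw [Module.Basis.coe_toOrthonormalBasis, hB]
  simp only
  rw [smul_smul, mul_inv_cancel₀ he.ne', one_smul, add_sub_cancel]

/-- the neighbours of the vertices -/
lemma nb {P : Set (E (D + 1))} {v : E (D + 1)} {e : ℝ} (he : 0 < e)
    (hadj1 : ∀ v w, Adj P v w → Vx P v ∧ Vx P w ∧ Adj P w v)
    (hrel : ∀ v w y, Cor P v w y → Cor P w v (y + (w - v)))
    (hloc : ∀ v, Vx P v → LocS P v 0 e)
    (b : OrthonormalBasis (Fin (D + 1)) ℝ (E (D + 1)))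
    (hb : ∀ w, Adj P v w ↔ ∃ j, w = v + e • b j) (S : Finset (Fin (D + 1))) :
    ∀ w, Adj P (pt v e b S) w ↔ ∃ j, w = pt v e b S + sg e S j • b j := by
  classical
  induction S using Finset.induction_on with
  | empty =>
    intro w
    have h1 : pt v e b ∅ = v := by
      unfold pt
      simp
    rw [h1, hb]
    simp [sg]
  | insert i S hi ih =>
    obtain ⟨a, ha⟩ : ∃ a, a = pt v e b S := ⟨_, rfl⟩
    rw [pt_insert v e b hi, ← ha]
    rw [← ha] at ih
    obtain ⟨w, hw⟩ : ∃ w, w = a + e • b i := ⟨_, rfl⟩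
    rw [← hw]
    have hsi : sg e S i = e := by simp [sg, hi]
    have hsj : ∀ j, j ≠ i → sg e (insert i S) j = sg e S j := fun j hj => by
      simp [sg, hj]
    have haw : Adj P a w := (ih w).2 ⟨i, by rw [hsi, hw]⟩
    have hva := (hadj1 _ _ haw).1
    have hvw := (hadj1 _ _ haw).2.1
    have hinj : ∀ (s : Fin (D + 1) → ℝ), (∀ j, s j ≠ 0) → ∀ z : E (D + 1),
        Function.Injective fun j => z + s j • b j := by
      intro s hs z j j' hjj
      by_contra hne
      have h1 : s j • b j = s j' • b j' := add_left_cancel hjj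
      have h2 : ⟪b j, s j • b j⟫ = ⟪b j, s j' • b j'⟫ := by rw [h1]
      rw [real_inner_smul_right, real_inner_smul_right, b.inner_eq_one, b.inner_eq_zero hne] at h2
      exact hs j (by linarith)
    have hall : ∀ j, Adj P w (w + sg e (insert i S) j • b j) := by
      intro j
      by_cases hj : j = i
      · subst hj
        have h1 : sg e (insert j S) j = -e := by simp [sg]
        have h2 : w + sg e (insert j S) j • b j = a := by
          rw [h1, hw, add_assoc, ← add_smul, add_neg_cancel, zero_smul, add_zero]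
        rw [h2]
        exact (hadj1 _ _ haw).2.2
      · have hay : Adj P a (a + sg e S j • b j) := (ih _).2 ⟨j, rfl⟩
        have hne : w ≠ a + sg e S j • b j := by
          intro h0
          have h1 : (fun j => a + sg e S j • b j) i = (fun j => a + sg e S j • b j) j := by
            change a + sg e S i • b i = _
            rw [hsi, ← hw]
            exact h0
          exact hj (hinj _ (sg_ne he S) a h1).symm
        have hc := ((hloc a hva).cor _ _ haw hay hne).1
        have h2 := (hrel _ _ _ hc).2.1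
        have h3 : a + sg e S j • b j + (w - a) = w + sg e (insert i S) j • b j := by
          rw [hsj j hj]
          abel
        rw [h3] at h2
        exact h2
    intro x
    have hfin : {y | Adj P w y}.Finite :=
      Set.finite_of_ncard_ne_zero (by rw [(hloc w hvw).num]; omega)
    have hsub : range (fun j => w + sg e (insert i S) j • b j) ⊆ {y | Adj P w y} := by
      rintro _ ⟨j, rfl⟩
      exact hall j
    have hcard : (range (fun j => w + sg e (insert i S) j • b j)).ncard = D + 1 := by
      rw [← image_univ, Set.ncard_image_of_injective _ (hinj _ (sg_ne he _) w), Set.ncard_univ,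
        Nat.card_fin]
    have heq := Set.eq_of_subset_of_ncard_le hsub
      (by rw [hcard, (hloc w hvw).num]) hfin
    constructor
    · intro hx
      have : x ∈ range (fun j => w + sg e (insert i S) j • b j) := by
        rw [heq]
        exact hx
      obtain ⟨j, hj⟩ := this
      exact ⟨j, hj.symm⟩
    · rintro ⟨j, rfl⟩
      exact hall j

/-- the hull of the points is a cube -/
lemma hull_pt (v : E (D + 1)) {e : ℝ} (he : 0 < e)
    (b : OrthonormalBasis (Fin (D + 1)) ℝ (E (D + 1))) :
    convexHull ℝ (range (pt v e b)) =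
      {x | ∀ i, |⟪x - (v + ∑ i, (e / 2) • b i), b i⟫| ≤ e / 2} := by
  classical
  let F : (Fin (D + 1) → ℝ) →ᵃ[ℝ] E (D + 1) :=
    AffineMap.const ℝ (Fin (D + 1) → ℝ) v + (Fintype.linearCombination ℝ (b : Fin (D + 1) → E (D + 1))).toAffineMap
  have hF : ∀ t, F t = v + ∑ i, t i • b i := fun t => rfl
  have h1 : range (pt v e b) = F '' (univ.pi fun _ => {0, e}) := by
    ext x
    constructor
    · rintro ⟨S, rfl⟩
      refine ⟨fun i => if i ∈ S then e else 0, fun i _ => ?_, hF _⟩
      simp only
      split_ifs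
      · right; rfl
      · left; rfl
    · rintro ⟨t, ht, rfl⟩
      refine ⟨Finset.univ.filter fun i => t i = e, ?_⟩
      rw [hF]
      unfold pt
      congr 1
      refine Finset.sum_congr rfl fun i _ => ?_
      congr 1
      simp only [Finset.mem_filter, Finset.mem_univ, true_and]
      rcases ht i (mem_univ i) with h | h
      · rw [h, if_neg he.ne]
      · rw [mem_singleton_iff] at h
        rw [h, if_pos rfl]
  rw [h1, ← AffineMap.image_convexHull, convexHull_pi]
  have h2 : ∀ i : Fin (D + 1), (fun _ : Fin (D + 1) => convexHull ℝ ({0, e} : Set ℝ)) i = Icc 0 e :=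
    fun i => by
      simp only
      rw [convexHull_pair, segment_eq_Icc he.le]
  have hin : ∀ (t : Fin (D + 1) → ℝ) (i : Fin (D + 1)), ⟪∑ j, t j • b j, b i⟫ = t i := fun t i => by
    rw [sum_inner, Finset.sum_eq_single i]
    · rw [real_inner_smul_left, b.inner_eq_one, mul_one]
    · intro j _ hj
      rw [real_inner_smul_left, b.inner_eq_zero hj, mul_zero]
    · intro h
      exact absurd (Finset.mem_univ i) h
  ext x
  constructor
  · rintro ⟨t, ht, rfl⟩ i
    have h3 := ht i (mem_univ i)
    rw [h2 i] at h3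
    rw [hF]
    have h4 : v + ∑ i, t i • b i - (v + ∑ i, (e / 2) • b i) = ∑ i, (t i - e / 2) • b i := by
      rw [add_sub_add_left_eq_sub, ← Finset.sum_sub_distrib]
      exact Finset.sum_congr rfl fun i _ => (sub_smul _ _ _).symm
    rw [h4, hin, abs_le]
    constructor <;> linarith [h3.1, h3.2]
  · intro hx
    refine ⟨fun i => ⟪x - v, b i⟫, fun i _ => ?_, ?_⟩
    · rw [h2 i]
      have h3 := hx i
      have h4 : x - (v + ∑ i, (e / 2) • b i) = (x - v) - ∑ i, (e / 2) • b i := by abel
      rw [h4, inner_sub_left, hin, abs_le] at h3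
      constructor
      · change 0 ≤ ⟪x - v, b i⟫
        linarith [h3.1]
      · change ⟪x - v, b i⟫ ≤ e
        linarith [h3.2]
    · rw [hF]
      have h3 := b.sum_repr' (x - v)
      have h4 : ∑ i, ⟪x - v, b i⟫ • b i = x - v := by
        rw [← h3]
        refine Finset.sum_congr rfl fun i _ => ?_
        rw [h3, real_inner_comm]
      rw [h4, add_sub_cancel]

theorem cub : S_FACES → S_CONN → S_REL → S_CUB := by
  intro hfa hconn hrel D P e hD hP hloc
  obtain ⟨hFP, hint⟩ := hP
  obtain ⟨f1, -, -, -, f5, -, -, -, f9, -⟩ := hfa (D + 1) P hFP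
  have hne : P.Nonempty := hint.mono interior_subset
  obtain ⟨hPP, v, hv⟩ := f5 hne
  have hull := (f1 P hPP).2
  have hadj1 : ∀ v w, Adj P v w → Vx P v ∧ Vx P w ∧ Adj P w v := fun v w h =>
    ⟨(f9 v w h).1, (f9 v w h).2.1, (f9 v w h).2.2.1⟩
  have he : 0 < e := (hloc v hv).epos
  have huni : Uni P 0 e := by
    refine ⟨he, one_pos, fun v y h => (hloc v (hadj1 v y h).1).len y h, fun v y y' h => ?_⟩
    exact ((hloc v (hadj1 v y h.1).1).cor y y' h.1 h.2.1 h.2.2.1).2
  have hrel' : ∀ v w y, Cor P v w y → Cor P w v (y + (w - v)) := fun v w y h => by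
    have h1 := (hrel D P 0 e (by norm_num) ⟨hFP, hint⟩ huni v w y h).1
    rw [mul_zero, sub_zero, one_smul] at h1
    exact h1
  obtain ⟨b, hb⟩ := frame (hloc v hv)
  have hnb := nb he hadj1 hrel' hloc b hb
  have hvx : ∀ S, Vx P (pt v e b S) := fun S =>
    (hadj1 _ _ ((hnb S _).2 ⟨0, rfl⟩)).1
  have hall : ∀ w, Vx P w → w ∈ range (pt v e b) := by
    refine hconn D P ⟨hFP, hint⟩ (range (pt v e b)) ⟨v, ⟨∅, by simp [pt]⟩, hv⟩ ?_
    rintro _ ⟨S, rfl⟩ w - hw
    obtain ⟨j, rfl⟩ := (hnb S w).1 hw
    by_cases hj : j ∈ S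
    · refine ⟨S.erase j, ?_⟩
      rw [pt_erase v e b hj]
      simp [sg, hj]
    · refine ⟨insert j S, ?_⟩
      rw [pt_insert v e b hj]
      simp [sg, hj]
  refine ⟨v + ∑ i, (e / 2) • b i, e / 2, b, by positivity, ?_⟩
  rw [← hull_pt v he b]
  conv_lhs => rw [hull]
  congr 1
  ext w
  constructor
  · intro h
    exact hall w h.1
  · rintro ⟨S, rfl⟩
    exact ⟨hvx S, (hvx S).2.subset rfl⟩

end Pool.Agent.T9h8.NK
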