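import Pool.Agent.T9h44.NK.SpecA

/-!
# Project NK, FACES (vi): faces of dimension 0 and 1
-/

set_option autoImplicit false

open Set
open scoped RealInnerProductSpace

namespace Pool.Agent.T9h8.NK

open Pool.Agent.T9h98.DC
open Pool.Agent.T9h44.NK

variable {d : ℕ} {P : Set (E d)}

lemma dm0 {F : Set (E d)} (hne : F.Nonempty) (h : dm F = 0) : ∃ v, F = {v} := by
  obtain ⟨v, hv⟩ := hne
  refine ⟨v, ?_⟩
  have h1 : vectorSpan ℝ F = ⊥ := Submodule.finrank_eq_zero.1 h
  ext x
  rw [mem_singleton_iff]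
  constructor
  · intro hx
    have h2 := vsub_mem_vectorSpan ℝ hx hv
    rw [h1, Submodule.mem_bot, vsub_eq_sub, sub_eq_zero] at h2
    exact h2
  · rintro rfl
    exact hv

lemma dm_seg {v w : E d} (h : v ≠ w) : dm (segment ℝ v w) = 1 := by
  have h1 : vectorSpan ℝ (segment ℝ v w) = Submodule.span ℝ {v -ᵥ w} := by
    rw [← convexHull_pair, ← direction_affineSpan, affineSpan_convexHull, direction_affineSpan,
      vectorSpan_pair]
  change Module.finrank ℝ (vectorSpan ℝ (segment ℝ v w)) = 1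
  rw [h1]
  exact finrank_span_singleton (by rw [vsub_eq_sub]; exact sub_ne_zero.2 h)

lemma seg_face {v w : E d} (h : v ≠ w) : IsFace (segment ℝ v w) {v} := by
  refine ⟨singleton_nonempty v, fun _ => ⟨innerSL ℝ (v - w), ?_⟩⟩
  have hpos : 0 < ⟪v - w, v - w⟫ := by
    rw [real_inner_self_eq_norm_sq]
    have : 0 < ‖v - w‖ := norm_pos_iff.2 (sub_ne_zero.2 h)
    positivity
  ext x
  rw [mem_singleton_iff]
  constructor
  · rintro rfl
    refine ⟨left_mem_segment ℝ _ _, ?_⟩
    rintro y ⟨a, b, ha, hb, hab, rfl⟩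
    rw [innerSL_apply_apply, innerSL_apply_apply, inner_add_right, real_inner_smul_right,
      real_inner_smul_right]
    rw [inner_sub_right] at hpos
    have : a = 1 - b := by linarith
    subst this
    nlinarith
  · rintro ⟨⟨a, b, ha, hb, hab, rfl⟩, h2⟩
    have h3 := h2 v (left_mem_segment ℝ _ _)
    rw [innerSL_apply_apply, innerSL_apply_apply, inner_add_right, real_inner_smul_right,
      real_inner_smul_right] at h3
    rw [inner_sub_right] at hpos
    have ha' : a = 1 - b := by linarith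
    subst ha'
    have hb0 : b = 0 := by
      by_contra hb0
      have hb1 : 0 < b := lt_of_le_of_ne hb (Ne.symm hb0)
      nlinarith
    subst hb0
    simp

lemma dm1 (hc : IsCompact P) (hconv : Convex ℝ P) {F : Set (E d)} (hF : IsFace P F)
    (h : dm F = 1) : ∃ v w, Adj P v w ∧ F = segment ℝ v w := by
  have hFc : IsCompact F := hF.2.isCompact hc
  have hFv : Convex ℝ F := hF.2.convex hconv
  obtain ⟨u, hu0, hu⟩ := finrank_eq_one_iff'.1 h
  obtain ⟨u, hum⟩ := u
  have hu1 : u ≠ 0 := fun h0 => hu0 (Subtype.ext h0)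
  have hcoll : ∀ x ∈ F, ∀ y ∈ F, ∃ c : ℝ, x - y = c • u := fun x hx y hy => by
    obtain ⟨c, hc⟩ := hu ⟨x -ᵥ y, vsub_mem_vectorSpan ℝ hx hy⟩
    exact ⟨c, (congrArg Subtype.val hc).symm⟩
  have hcont : ContinuousOn (fun x : E d => ⟪u, x⟫) F := by fun_prop
  obtain ⟨v, hv, hvm⟩ := hFc.exists_isMinOn hF.1 hcont
  obtain ⟨w, hw, hwm⟩ := hFc.exists_isMaxOn hF.1 hcont
  have hpos : 0 < ⟪u, u⟫ := by
    rw [real_inner_self_eq_norm_sq]
    have : 0 < ‖u‖ := norm_pos_iff.2 hu1
    positivity
  obtain ⟨c, hcw⟩ := hcoll w hw v hv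
  have hseg : F = segment ℝ v w := by
    refine Subset.antisymm (fun x hx => ?_) (hFv.segment_subset hv hw)
    obtain ⟨a, ha⟩ := hcoll x hx v hv
    have h1 : ⟪u, v⟫ ≤ ⟪u, x⟫ := hvm hx
    have h2 : ⟪u, x⟫ ≤ ⟪u, w⟫ := hwm hx
    have hx' : x = v + a • u := by rw [← ha]; abel
    have hw' : w = v + c • u := by rw [← hcw]; abel
    rw [hx', inner_add_right, real_inner_smul_right] at h1 h2
    rw [hw', inner_add_right, real_inner_smul_right] at h2
    have ha0 : 0 ≤ a := by
      by_contra hcon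
      push Not at hcon
      nlinarith
    have hac : a ≤ c := by
      by_contra hcon
      push Not at hcon
      nlinarith
    rcases eq_or_lt_of_le (ha0.trans hac) with h0 | h0
    · have : a = 0 := by linarith
      rw [hx', this, zero_smul, add_zero]
      exact left_mem_segment ℝ _ _
    · refine ⟨1 - a / c, a / c, ?_, by positivity, by ring, ?_⟩
      · rw [sub_nonneg, div_le_one h0]
        exact hac
      · rw [hx', hw', smul_add, smul_smul, div_mul_cancel₀ _ h0.ne', ← add_assoc, ← add_smul]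
        congr 1
        rw [show (1 - a / c + a / c : ℝ) = 1 by ring, one_smul]
  refine ⟨v, w, ⟨?_, hseg ▸ hF⟩, hseg⟩
  rintro rfl
  rw [segment_same] at hseg
  rw [hseg] at h
  have h3 : dm ({v} : Set (E d)) = 0 := by
    change Module.finrank ℝ (vectorSpan ℝ ({v} : Set (E d))) = 0
    rw [vectorSpan_singleton]
    exact finrank_bot ℝ _
  omega

theorem low (hP : FP P)
    (h2 : ∀ F, IsFace P F → ∀ G, IsFace F G ↔ (IsFace P G ∧ G ⊆ F)) :
    (∀ F, IsFace P F → dm F = 0 → ∃ v, F = {v}) ∧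
    (∀ F, IsFace P F → dm F = 1 → ∃ v w, Adj P v w ∧ F = segment ℝ v w) ∧
    (∀ v w, Adj P v w → Vx P v ∧ Vx P w ∧ Adj P w v ∧ dm (segment ℝ v w) = 1) ∧
    (∀ v w, Adj P v w → ∀ u, Vx P u → u ∈ segment ℝ v w → u = v ∨ u = w) := by
  obtain ⟨s, hs⟩ := hP
  have hc : IsCompact P := by
    rw [hs]
    exact s.finite_toSet.isCompact_convexHull (𝕜 := ℝ)
  have hconv : Convex ℝ P := by
    rw [hs]
    exact convex_convexHull ℝ _
  refine ⟨fun F hF h => dm0 hF.1 h, fun F hF h => dm1 hc hconv hF h, fun v w h => ?_,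
    fun v w h u hu huv => ?_⟩
  · have h3 : IsFace P (segment ℝ w v) := by
      rw [segment_symm]
      exact h.2
    exact ⟨((h2 _ h.2 _).1 (seg_face h.1)).1, ((h2 _ h3 _).1 (seg_face h.1.symm)).1,
      ⟨h.1.symm, h3⟩, dm_seg h.1⟩
  · obtain ⟨l, hl⟩ := hu.2 hu.1
    have hv : v ∈ P := h.2.2.subset (left_mem_segment ℝ _ _)
    have hw : w ∈ P := h.2.2.subset (right_mem_segment ℝ _ _)
    have hu1 : ∀ y ∈ P, l y ≤ l u := by
      have : u ∈ ({u} : Set (E d)) := rfl
      rw [hl] at this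
      exact this.2
    have huniq : ∀ y ∈ P, l u ≤ l y → u = y := fun y hy hyl => by
      have h5 : y ∈ ({u} : Set (E d)) := by
        rw [hl]
        exact ⟨hy, fun z hz => (hu1 z hz).trans hyl⟩
      exact (mem_singleton_iff.1 h5).symm
    obtain ⟨a, b, ha, hb, hab, hu2⟩ := huv
    have h6 : l u = a * l v + b * l w := by
      rw [← hu2, map_add, map_smul, map_smul, smul_eq_mul, smul_eq_mul]
    have h7 := hu1 v hv
    have h8 := hu1 w hw
    rcases eq_or_lt_of_le ha with h0 | h0
    · right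
      rw [← hu2, ← h0, zero_smul, zero_add, show b = 1 by linarith, one_smul]
    · left
      refine huniq v hv ?_
      have : a = 1 - b := by linarith
      by_contra hcon
      push Not at hcon
      have h9 : b * l w ≤ b * l u := mul_le_mul_of_nonneg_left h8 hb
      have h10 : a * l v < a * l u := mul_lt_mul_of_pos_left hcon h0
      have h11 : l u = a * l u + b * l u := by rw [← add_mul, hab, one_mul]
      linarith

end Pool.Agent.T9h8.NK
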